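import Pool.Agent.U398.MV.Stm2
import Pool.Agent.H370R2.Digamma

set_option autoImplicit false

/-!
# Project MV2, package TG: the gamma factor varies slowly
-/

namespace Pool.Agent.U606.MV2

open Complex Filter Topology Set

lemma inv_sq_le {a : ℝ} (ha : 1 ≤ a) (n : ℕ) :
    1 / ((n : ℝ) ^ 2 + a ^ 2) ≤ 2 * (1 / ((n : ℝ) + a - 1 / 2) - 1 / (((n + 1 : ℕ) : ℝ) + a - 1 / 2)) := by
  have hn : (0 : ℝ) ≤ n := Nat.cast_nonneg n
  have h1 : (0 : ℝ) < (n : ℝ) + a - 1 / 2 := by linarith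
  have h2 : (0 : ℝ) < ((n + 1 : ℕ) : ℝ) + a - 1 / 2 := by push_cast; linarith
  have h3 : (0 : ℝ) < (n : ℝ) ^ 2 + a ^ 2 := by positivity
  rw [div_sub_div _ _ h1.ne' h2.ne', ← mul_div_assoc, div_le_div_iff₀ h3 (mul_pos h1 h2)]
  push_cast
  nlinarith [sq_nonneg ((n : ℝ) - a)]

lemma hasSum_tele {a : ℝ} (ha : 1 ≤ a) :
    HasSum (fun n : ℕ => 2 * (1 / ((n : ℝ) + a - 1 / 2) - 1 / (((n + 1 : ℕ) : ℝ) + a - 1 / 2)))
      (2 * (1 / (a - 1 / 2))) := by
  apply HasSum.mul_left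
  have hnn : ∀ n : ℕ, 0 ≤ (1 / ((n : ℝ) + a - 1 / 2) - 1 / (((n + 1 : ℕ) : ℝ) + a - 1 / 2)) := by
    intro n
    have hn : (0 : ℝ) ≤ n := Nat.cast_nonneg n
    rw [sub_nonneg]
    apply one_div_le_one_div_of_le (by linarith)
    push_cast
    linarith
  rw [hasSum_iff_tendsto_nat_of_nonneg hnn]
  have h1 : ∀ m : ℕ, ∑ n ∈ Finset.range m,
      (1 / ((n : ℝ) + a - 1 / 2) - 1 / (((n + 1 : ℕ) : ℝ) + a - 1 / 2)) =
      1 / (a - 1 / 2) - 1 / ((m : ℝ) + a - 1 / 2) := by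
    intro m
    rw [Finset.sum_range_sub' (fun n : ℕ => 1 / ((n : ℝ) + a - 1 / 2))]
    simp
  simp only [h1]
  have h2 : Tendsto (fun m : ℕ => 1 / ((m : ℝ) + a - 1 / 2)) atTop (𝓝 0) := by
    have h3 : Tendsto (fun m : ℕ => (m : ℝ) + a - 1 / 2) atTop atTop := by
      have := tendsto_atTop_add_const_right atTop (a - 1 / 2) (tendsto_natCast_atTop_atTop (R := ℝ))
      refine this.congr fun m => by ring
    refine (tendsto_inv_atTop_zero.comp h3).congr fun m => ?_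
    simp [Function.comp]
  simpa using h2.const_sub (1 / (a - 1 / 2))

/-- difference of the digamma function at two points -/
lemma digamma_diff {a : ℝ} (ha : 1 ≤ a) {s s' : ℂ} (hs : 0 < s.re) (hs' : 0 < s'.re)
    (h1 : a ≤ s.im) (h2 : a ≤ s'.im) :
    ‖logDeriv Gamma s - logDeriv Gamma s'‖ ≤ ‖s - s'‖ * (2 * (1 / (a - 1 / 2))) := by
  have hlow : ∀ z : ℂ, 0 < z.re → a ≤ z.im → ∀ n : ℕ, (n : ℝ) ^ 2 + a ^ 2 ≤ ‖z + n‖ ^ 2 := by
    intro z hz hza n
    have hn : (0 : ℝ) ≤ n := Nat.cast_nonneg n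
    rw [← Complex.normSq_eq_norm_sq, Complex.normSq_apply]
    simp only [add_re, natCast_re, add_im, natCast_im, add_zero]
    nlinarith
  have hpos : ∀ n : ℕ, 0 < (n : ℝ) ^ 2 + a ^ 2 := fun n => by positivity
  have hne : ∀ z : ℂ, 0 < z.re → a ≤ z.im → ∀ n : ℕ, z + n ≠ 0 := by
    intro z hz hza n h
    have := hlow z hz hza n
    rw [h] at this
    simp at this
    linarith [hpos n]
  -- the term
  have hterm : ∀ n : ℕ, ‖1 / (s + n) - 1 / (s' + n)‖ ≤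
      ‖s - s'‖ * (2 * (1 / ((n : ℝ) + a - 1 / 2) - 1 / (((n + 1 : ℕ) : ℝ) + a - 1 / 2))) := by
    intro n
    have e1 := hne s hs h1 n
    have e2 := hne s' hs' h2 n
    have e3 : 1 / (s + n) - 1 / (s' + n) = -(s - s') * (1 / ((s + n) * (s' + n))) := by
      field_simp
      ring
    rw [e3, norm_mul, norm_neg, norm_div, norm_one, norm_mul]
    apply mul_le_mul_of_nonneg_left _ (norm_nonneg _)
    refine le_trans ?_ (inv_sq_le ha n)
    apply one_div_le_one_div_of_le (hpos n)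
    have h3 := hlow s hs h1 n
    have h4 := hlow s' hs' h2 n
    have h5 : (0:ℝ) ≤ ‖s + n‖ * ‖s' + n‖ := by positivity
    have h6 : ((n : ℝ) ^ 2 + a ^ 2) ^ 2 ≤ (‖s + n‖ * ‖s' + n‖) ^ 2 := by
      rw [mul_pow, sq ((n : ℝ) ^ 2 + a ^ 2)]
      exact mul_le_mul h3 h4 (hpos n).le (by positivity)
    exact (pow_le_pow_iff_left₀ (hpos n).le h5 (by norm_num)).1 h6
  have hsum : Summable fun n : ℕ => ‖s - s'‖ *
      (2 * (1 / ((n : ℝ) + a - 1 / 2) - 1 / (((n + 1 : ℕ) : ℝ) + a - 1 / 2))) :=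
    ((hasSum_tele ha).mul_left _).summable
  have hsumd : Summable fun n : ℕ => (1 / (s + n) - 1 / (s' + n)) :=
    Summable.of_norm_bounded hsum hterm
  have key : logDeriv Gamma s - logDeriv Gamma s' = -∑' n : ℕ, (1 / (s + n) - 1 / (s' + n)) := by
    rw [H370.DG.logDeriv_Gamma hs, H370.DG.logDeriv_Gamma hs']
    have g1 := H370.DG.summable_gd (s := s) (by linarith)
    have g2 := H370.DG.summable_gd (s := s') (by linarith)
    have e : ∑' n, H370.DG.gd n s - ∑' n, H370.DG.gd n s' =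
        -∑' n : ℕ, (1 / (s + ((n + 2 : ℕ) : ℂ)) - 1 / (s' + ((n + 2 : ℕ) : ℂ))) := by
      rw [← g1.tsum_sub g2, ← tsum_neg]
      apply tsum_congr
      intro n
      unfold H370.DG.gd
      push_cast
      ring
    have e2 := hsumd.sum_add_tsum_nat_add 2
    rw [← e2, Finset.sum_range_succ, Finset.sum_range_one]
    have e3 : -(1 / s) - 1 / (s + 1) + ∑' n, H370.DG.gd n s -
        (-(1 / s') - 1 / (s' + 1) + ∑' n, H370.DG.gd n s') =
        -(1 / s - 1 / s' + (1 / (s + 1) - 1 / (s' + 1))) +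
          (∑' n, H370.DG.gd n s - ∑' n, H370.DG.gd n s') := by ring
    rw [e3, e]
    push_cast
    simp only [add_zero]
    ring
  rw [key, norm_neg]
  exact tsum_of_norm_bounded ((hasSum_tele ha).mul_left _) hterm

lemma logDeriv_Gammaℝ {s : ℂ} (hs : 0 < s.re) :
    logDeriv Gammaℝ s = -(Real.log Real.pi : ℂ) / 2 + 1 / 2 * logDeriv Gamma (s / 2) := by
  have hpi : (Real.pi : ℂ) ≠ 0 := by exact_mod_cast Real.pi_ne_zero
  have hs2 : 0 < (s / 2).re := by simpa using hs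
  have hdG : HasDerivAt Gamma (deriv Gamma (s / 2)) (s / 2) :=
    (Complex.differentiableAt_Gamma _ (fun m h => by
      have := congrArg re h
      simp only [neg_re, natCast_re] at this
      have hm : (0 : ℝ) ≤ m := Nat.cast_nonneg m
      linarith)).hasDerivAt
  have hne : Gamma (s / 2) ≠ 0 := Gamma_ne_zero_of_re_pos hs2
  have h1 : HasDerivAt (fun z : ℂ => z / 2) (1 / 2) s := (hasDerivAt_id s).div_const 2
  have h2 : HasDerivAt (fun z : ℂ => Gamma (z / 2)) (deriv Gamma (s / 2) * (1 / 2)) s :=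
    HasDerivAt.comp s hdG h1
  have h3 : HasDerivAt (fun z : ℂ => (Real.pi : ℂ) ^ (-z / 2))
      ((Real.pi : ℂ) ^ (-s / 2) * log Real.pi * (-1 / 2)) s := by
    have h4 : HasDerivAt (fun z : ℂ => -z / 2) (-1 / 2) s := ((hasDerivAt_id s).neg).div_const 2
    exact h4.const_cpow (Or.inl hpi)
  have h5 : HasDerivAt Gammaℝ (((Real.pi : ℂ) ^ (-s / 2) * log Real.pi * (-1 / 2)) * Gamma (s / 2) +
      (Real.pi : ℂ) ^ (-s / 2) * (deriv Gamma (s / 2) * (1 / 2))) s := by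
    have := h3.mul h2
    exact this
  have hp : (Real.pi : ℂ) ^ (-s / 2) ≠ 0 := by
    rw [Ne, cpow_eq_zero_iff]
    tauto
  rw [logDeriv_apply, h5.deriv, logDeriv_apply, Gammaℝ_def, ← Complex.ofReal_log Real.pi_pos.le]
  field_simp

theorem t_TG : Pool.Agent.U398.MV.S_TG := by
  refine ⟨8, by norm_num, ?_⟩
  intro T hT y y' h1 h2 h3 h4
  have hT0 : 0 < T := by linarith
  have hs : ∀ y : ℝ, 0 < ((1 / 2 : ℂ) + y * I).re := by intro y; simp
  have hs2 : ∀ y : ℝ, 0 < (((1 / 2 : ℂ) + y * I) / 2).re := by intro y; simp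
  have him : ∀ y : ℝ, (((1 / 2 : ℂ) + y * I) / 2).im = y / 2 := by intro y; simp
  rw [logDeriv_Gammaℝ (hs y), logDeriv_Gammaℝ (hs y')]
  have e : (-(Real.log Real.pi : ℂ) / 2 + 1 / 2 * logDeriv Gamma (((1 / 2 : ℂ) + y * I) / 2)).re -
      (-(Real.log Real.pi : ℂ) / 2 + 1 / 2 * logDeriv Gamma (((1 / 2 : ℂ) + y' * I) / 2)).re =
      (1 / 2 * (logDeriv Gamma (((1 / 2 : ℂ) + y * I) / 2) -
        logDeriv Gamma (((1 / 2 : ℂ) + y' * I) / 2))).re := by
    rw [← sub_re]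
    congr 1
    ring
  rw [e]
  refine (abs_re_le_norm _).trans ?_
  rw [norm_mul]
  have hd := digamma_diff (a := T / 2) (by linarith) (hs2 y) (hs2 y') (by rw [him]; linarith)
    (by rw [him]; linarith)
  have hn : ‖((1 / 2 : ℂ) + y * I) / 2 - ((1 / 2 : ℂ) + y' * I) / 2‖ = |y - y'| / 2 := by
    have : ((1 / 2 : ℂ) + y * I) / 2 - ((1 / 2 : ℂ) + y' * I) / 2 = ((y - y' : ℝ) : ℂ) / 2 * I := by
      push_cast; ring
    rw [this, norm_mul, norm_div, Complex.norm_real, Complex.norm_I, Real.norm_eq_abs]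
    norm_num
  rw [hn] at hd
  have h12 : ‖(1 / 2 : ℂ)‖ = 1 / 2 := by norm_num
  rw [h12]
  have h6 : 1 / (T / 2 - 1 / 2) ≤ 4 / T := by
    rw [div_le_div_iff₀ (by linarith) hT0]
    linarith
  calc 1 / 2 * ‖logDeriv Gamma (((1 / 2 : ℂ) + y * I) / 2) -
        logDeriv Gamma (((1 / 2 : ℂ) + y' * I) / 2)‖
      ≤ 1 / 2 * (|y - y'| / 2 * (2 * (1 / (T / 2 - 1 / 2)))) := by gcongr
    _ ≤ 1 / 2 * (|y - y'| / 2 * (2 * (4 / T))) := by gcongr
    _ ≤ 8 / T * |y - y'| := by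
        have : 0 ≤ |y - y'| / T := by positivity
        have e : 1 / 2 * (|y - y'| / 2 * (2 * (4 / T))) = 2 * (|y - y'| / T) := by ring
        have e' : 8 / T * |y - y'| = 8 * (|y - y'| / T) := by ring
        rw [e, e']
        linarith

end Pool.Agent.U606.MV2
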